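import Pool.Agent.Lib.MP_04668c_co.E.H53.Main
import Pool.Agent.Lib.MP_04668c_co.E.H53.Good
import Pool.Agent.Lib.MP_04668c_co.E.H53.Yfib
import Pool.Agent.Lib.MP_04668c_co.E.H53.Ycount
import Pool.Agent.Lib.MP_04668c_co.E.H15.Rcov
import Pool.Agent.Lib.MP_04668c_co.E.H15.Hrel
import Pool.Agent.Lib.MP_04668c_co.E.H15.Supp
import Pool.Agent.Lib.MP_04668c_co.E.H15.Fpos
import Pool.Agent.Lib.MP_04668c_co.E.H2.Final
import Pool.Agent.Lib.MP_04668c_co.E.H2.Tcard
import Pool.Agent.Lib.MP_04668c_co.E.H2.Noncol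
import Pool.Agent.Lib.MP_04668c_co.E.H27.Dimn
import Pool.Agent.Lib.MP_04668c_co.E.H27.Killc
import Pool.Agent.Lib.MP_04668c_co.E.H29.Injp
import Pool.Agent.Lib.MP_04668c_co.E.H29.Openc
import Pool.Agent.Lib.MP_04668c_co.E.H29.Genc
import Pool.Agent.Lib.MP_04668c_co.E.H43.BaseM
import Pool.Agent.Lib.MP_04668c_co.E.H34.Union
import Pool.Agent.Lib.MP_04668c_co.E.H34.Tune
import Pool.Agent.Lib.MP_04668c_co.E.H34.Jlin
import Pool.Agent.Lib.MP_04668c_co.E.H5.Block
import Pool.Agent.Lib.MP_04668c_co.E.H54.Rado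
import Pool.Agent.Lib.MP_04668c_co.E.H54.Pert
import Pool.Agent.Lib.MP_04668c_co.E.H54.Stab
import Pool.Agent.Lib.MP_04668c_co.E.H58.Ysplit
import Pool.Agent.Lib.MP_04668c_co.E.H64.Sys
import Pool.Agent.Lib.MP_04668c_co.E.H7.Dirs
import Pool.Agent.Lib.MP_04668c_co.E.H7.Expn
import Pool.Agent.Lib.MP_04668c_co.E.H80.Lin
import Pool.Agent.Lib.MP_04668c_co.E.H94.Lo
import Pool.Agent.Lib.MP_04668c_co.E.H97.YSum

/-!
# Theorem E: all modules put together
-/

set_option autoImplicit false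

namespace Pool.Agent.Lib.MP_04668c_co.E.Assembly

open Pool.Agent.Lib.MP_04668c_co.E

/-- Theorem E. -/
theorem theoremE : FinalStatement :=
  H2.final
    (H53.main (H64.sys H7.expn H15.rcov H7.edges) H27.dimn (H43.base H54.rado)
      (H29.openc H29.injp) H29.genc H27.killc
      (H53.good H53.yfib H97.ysum) (H15.supp H15.hrel)
      (H5.block H58.ysplit (H53.ycount H80.ydrop H80.ybase) H80.kdim) H2.noncol H5.arith
      (H34.tune (H34.union H94.lo) H34.rho H54.stab H34.jlin H34.coef) H2.tcard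
      H15.fpos H7.dirs)
    H5.small

end Pool.Agent.Lib.MP_04668c_co.E.Assembly
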