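import Pool.Agent.Lib.MP_04668c_co.Main2

/-!
# Bounded slope number of expanders of maximum degree four: definitions and module statements

See `Paper.md` in this folder.  All statements are independent `Prop`s; the file `Main` of the
project proves the theorem from them.
-/

set_option autoImplicit false
set_option linter.unusedSectionVars false

namespace Pool.Agent.Lib.MP_04668c_co.E

open Finset Classical Module
open Pool.Agent.Lib.MP_04668c_co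

/-! ## Definitions -/

section defs

variable {V X C : Type} [Fintype V] [Fintype X] [Fintype C]

/-- Every vertex has at most four neighbours. -/
def Deg4 (G : SimpleGraph V) : Prop := ∀ v, (univ.filter (fun u => G.Adj v u)).card ≤ 4

/-- The edges leaving `Y`, as pairs (inside, outside). -/
noncomputable def bdry (G : SimpleGraph V) (Y : Finset V) : Finset (V × V) :=
  (Y ×ˢ Yᶜ).filter (fun p => G.Adj p.1 p.2)

/-- Edge expansion at least `1 / n₀`. -/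
def Expd (G : SimpleGraph V) (n₀ : ℕ) : Prop :=
  ∀ Y : Finset V, 2 * Y.card ≤ Fintype.card V → Y.card ≤ n₀ * (bdry G Y).card

/-- The number `R(K)` of conditions imposed by the bodies of `K`. -/
noncomputable def Rk (B : X → Finset V) (K : Finset X) : ℕ := ∑ x ∈ K, (2 * (B x).card - 3)

/-- The bodies inside `Q`. -/
noncomputable def KQ (B : X → Finset V) (Q : Finset V) : Finset X :=
  univ.filter (fun x => B x ⊆ Q)

/-- The bodies meeting `Z`. -/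
noncomputable def KZ (B : X → Finset V) (Z : Finset V) : Finset X :=
  univ.filter (fun x => ∃ v ∈ B x, v ∈ Z)

/-- The system of bodies covering the edges of `G` that avoid `S`. -/
structure Sys (G : SimpleGraph V) (S : Finset V) (B : X → Finset V) (n₀ L b : ℕ) : Prop where
  two : ∀ x, 2 ≤ (B x).card
  size : ∀ x, (B x).card ≤ b
  deg : ∀ v, (univ.filter (fun x => v ∈ B x)).card ≤ 4
  avoid : ∀ x, Disjoint (B x) S
  cardS : S.card = 12 * n₀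
  cov : ∀ u v, G.Adj u v → u ∉ S → v ∉ S → ∃ x, u ∈ B x ∧ v ∈ B x
  lam : ∀ K : Finset X, K.Nonempty → Rk B K + 3 ≤ 2 * (vs B K).card
  small : ∀ K : Finset X, K.Nonempty → 2 * (vs B K).card ≤ Fintype.card V →
    L * Rk B K + K.card ≤ L * (2 * (vs B K).card - 3) + 1
  large : ∀ Q : Finset V, Fintype.card V < 2 * Q.card →
    2 * n₀ * Rk B (KQ B Q) + Qᶜ.card ≤ 4 * n₀ * Q.card

/-- The rows of the system with shapes `q` are independent. -/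
def Indep (B : X → Finset V) (q : X → V → ℝ × ℝ) : Prop :=
  ∀ Φ ∈ famK B univ, (∀ x, ip (q x) (Φ x) = 0) → sumMap Φ = 0 → Φ = 0

/-- The two unit vectors. -/
noncomputable def e2 (a : Fin 2) : ℝ × ℝ := if a = 0 then (1, 0) else (0, 1)

/-- A local numbering of the vertices of the bodies. -/
def Num (B : X → Finset V) (b : ℕ) (idx : X → V → ℕ) : Prop :=
  ∀ x, (∀ u ∈ B x, ∀ v ∈ B x, idx x u = idx x v → u = v) ∧ ∀ u ∈ B x, idx x u < b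

/-- The coloured shapes. -/
noncomputable def qs (idx : X → V → ℕ) (j : X → V) (a : X → Fin 2) (τ : ℝ) (i : ℕ) (x : X) (v : V) :
    ℝ × ℝ :=
  (Pi.single (j x) (e2 (a x)) : V → ℝ × ℝ) v + τ • shp ((i : ℝ) + 2) (idx x v)

/-- Families of forces annihilated by the shapes `q`. -/
noncomputable def NN (B : X → Finset V) (q : X → V → ℝ × ℝ) : Submodule ℝ (X → V → ℝ × ℝ) :=
  famK B univ ⊓ ⨅ x, LinearMap.ker ((ip (q x)).comp (LinearMap.proj x))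

/-- The forces that do no work on the drawings with shapes `q`. -/
noncomputable def sp (B : X → Finset V) (q : X → V → ℝ × ℝ) : Submodule ℝ (V → ℝ × ℝ) :=
  (NN B q).map sumMap

/-- Placements supported on `Z` which on every body of `Y` are a translate of a multiple of
the shape. -/
noncomputable def kerR (B : X → Finset V) (q : X → V → ℝ × ℝ) (Z : Finset V) (Y : Finset X) :
    Submodule ℝ (V → ℝ × ℝ) where
  carrier := {p | (∀ v, v ∉ Z → p v = 0) ∧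
    ∀ x ∈ Y, ∃ (s : ℝ) (a : ℝ × ℝ), ∀ v ∈ B x, p v = s • q x v + a}
  add_mem' := by
    rintro p p' ⟨h1, h2⟩ ⟨h1', h2'⟩
    refine ⟨fun v hv => by rw [Pi.add_apply, h1 v hv, h1' v hv, add_zero], fun x hx => ?_⟩
    obtain ⟨s, a, h⟩ := h2 x hx
    obtain ⟨s', a', h'⟩ := h2' x hx
    refine ⟨s + s', a + a', fun v hv => ?_⟩
    rw [Pi.add_apply, h v hv, h' v hv, add_smul]
    abel
  zero_mem' := ⟨fun _ _ => rfl, fun x _ => ⟨0, 0, fun v _ => by simp⟩⟩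
  smul_mem' := by
    rintro t p ⟨h1, h2⟩
    refine ⟨fun v hv => by rw [Pi.smul_apply, h1 v hv, smul_zero], fun x hx => ?_⟩
    obtain ⟨s, a, h⟩ := h2 x hx
    refine ⟨t * s, t • a, fun v hv => ?_⟩
    rw [Pi.smul_apply, h v hv, smul_add, smul_smul]

theorem mem_kerR (B : X → Finset V) (q : X → V → ℝ × ℝ) (Z : Finset V) (Y : Finset X)
    (p : V → ℝ × ℝ) : p ∈ kerR B q Z Y ↔ (∀ v, v ∉ Z → p v = 0) ∧
      ∀ x ∈ Y, ∃ (s : ℝ) (a : ℝ × ℝ), ∀ v ∈ B x, p v = s • q x v + a := Iff.rfl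

/-- All placements. -/
noncomputable def kerq (B : X → Finset V) (q : X → V → ℝ × ℝ) : Submodule ℝ (V → ℝ × ℝ) :=
  kerR B q univ univ

/-- The placements supported on `Z`. -/
noncomputable def kerZ (B : X → Finset V) (q : X → V → ℝ × ℝ) (Z : Finset V) :
    Submodule ℝ (V → ℝ × ℝ) := kerR B q Z univ

/-- The bodies on which `p` is not constant. -/
noncomputable def ncs (B : X → Finset V) (p : V → ℝ × ℝ) : Finset X :=
  univ.filter (fun x => ∃ u ∈ B x, ∃ v ∈ B x, p u ≠ p v)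

/-- The placements in which only the bodies outside `N` and the bodies of `N` before `x` are
respected. -/
noncomputable def Tx (B : X → Finset V) (q : X → V → ℝ × ℝ) (Z : Finset V) (N : Finset X)
    (ord : X → ℕ) (x : X) : Submodule ℝ (V → ℝ × ℝ) :=
  kerR B q Z (univ.filter (fun y => y ∉ N ∨ ord y < ord x))

/-- A force on the body `x` that does no work on `T`. -/
def Prp (B : X → Finset V) (T : Submodule ℝ (V → ℝ × ℝ)) (x : X) : Prop :=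
  ∃ F : V → ℝ × ℝ, F ≠ 0 ∧ (∀ v, v ∉ B x → F v = 0) ∧ ∑ v, F v = 0 ∧ ∀ p ∈ T, ip p F = 0

/-- The determined bodies. -/
noncomputable def detSet (B : X → Finset V) (q : X → V → ℝ × ℝ) (Z : Finset V) (N : Finset X)
    (ord : X → ℕ) : Finset X :=
  N.filter (fun x => Prp B (Tx B q Z N ord x) x)

/-- The shapes of a colouring. -/
def qc (q : C → X → V → ℝ × ℝ) (c : X → C) : X → V → ℝ × ℝ := fun x => q (c x) x

/-- The bad event of the second kind. -/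
def YBad (B : X → Finset V) (q : C → X → V → ℝ × ℝ) (ord : X → ℕ) (Z : Finset V)
    (N D : Finset X) (c : X → C) : Prop :=
  (∃ p ∈ kerZ B (qc q c) Z, (∀ v ∈ Z, p v ≠ 0) ∧ N = ncs B p) ∧ D = detSet B (qc q c) Z N ord

/-- Tests: the type, a body and three vertices. -/
abbrev Tst (X V : Type) := Bool × X × V × V × V

/-- The force of a test. -/
noncomputable def tv (q : X → V → ℝ × ℝ) (i : Tst X V) : V → ℝ × ℝ :=
  if i.1 = true then dip i.2.2.1 i.2.2.2.1 (q i.2.1 i.2.2.1 - q i.2.1 i.2.2.2.1)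
  else dip i.2.2.2.2 i.2.2.1 (perp (q i.2.1 i.2.2.1 - q i.2.1 i.2.2.2.1))

/-- Valid tests. -/
def IsTst (B : X → Finset V) (i : Tst X V) : Prop :=
  i.2.2.1 ∈ B i.2.1 ∧ i.2.2.2.1 ∈ B i.2.1 ∧ i.2.2.1 ≠ i.2.2.2.1 ∧
    (i.1 = false → i.2.2.2.2 ≠ i.2.2.1 ∧ i.2.2.2.2 ≠ i.2.2.2.1)

/-- The derivative of a relation in the direction `δ` of the shapes. -/
noncomputable def Jv (p : V → ℝ × ℝ) (s : X → ℝ) (Φ : X → V → ℝ × ℝ) (i : Tst X V)
    (δ : X → V → ℝ × ℝ) : ℝ :=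
  ip p (tv δ i) + ∑ x, s x * ip (δ x) (Φ x)

/-- Elementary displacement of the shape of the body `y`. -/
noncomputable def un (idx : X → V → ℕ) {b : ℕ} (α : Fin b × Fin 2) (y : X) : X → V → ℝ × ℝ :=
  fun x v => if x = y ∧ idx x v = α.1.val then e2 α.2 else 0

/-- The displacement of the shapes given by 0/1 choices `μ` and amplitudes `ρ`. -/
noncomputable def dl (idx : X → V → ℕ) {b : ℕ} (ρ : Fin b × Fin 2 → Fin 5 → ℝ)
    (μ : Fin b × Fin 2 → Fin 5 → X → Bool) : X → V → ℝ × ℝ :=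
  fun x v => ∑ α : Fin b × Fin 2, ∑ k : Fin 5,
    if idx x v = α.1.val ∧ μ α k x = true then ρ α k • e2 α.2 else 0

/-- Condition (H) on a colouring. -/
def HH (B : X → Finset V) (q : C → X → V → ℝ × ℝ) (ord : X → ℕ) (L : ℕ) (c : X → C) : Prop :=
  ∀ (τ : Fin 4) (x₀ : X) (u v w : V) (K : Finset X), τ.val < 2 →
    Conn (adjB B) K → K.Nonempty → K ≠ {x₀} → Conn (adjB B) (insert x₀ K) →
    u ∈ vs B (insert x₀ K) → v ∈ vs B (insert x₀ K) → w ∈ vs B (insert x₀ K) →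
    HasRel B q K (Pf q τ x₀ u v w (c x₀)) c →
    2 * L * (failSet ord (lamB q) (famS B K (Pf q τ x₀ u v w (c x₀))) (Hf τ K x₀) c).card <
      (insert x₀ K).card

/-- Condition (Y) on a colouring. -/
def YY (B : X → Finset V) (q : C → X → V → ℝ × ℝ) (ord : X → ℕ) (L' : ℕ) (c : X → C) : Prop :=
  ∀ (Z : Finset V) (p : V → ℝ × ℝ), Conn (adjB B) (KZ B Z) → (KZ B Z).Nonempty →
    (∀ v ∈ Z, ∃ x, v ∈ B x) → p ∈ kerZ B (qc q c) Z → (∀ v ∈ Z, p v ≠ 0) →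
    2 * L' * (detSet B (qc q c) Z (ncs B p) ord).card < (KZ B Z).card

end defs

/-- The constant of the counting argument for the rules (Y). -/
def Zy (b δ : ℕ) : ℕ := 2 ^ (b + 2) * 2 ^ (1 + δ) * 2

/-- The number of colours. -/
def numC (b δ L L' r : ℕ) : ℕ := 4 * r * (Zc b δ) ^ (2 * L) * (Zy b δ) ^ (2 * L') + 1

/-- The number of slopes outside `S`. -/
def numD (s b : ℕ) : ℕ := s * (b * 2) * 2 ^ (b * 2 * 5) * (b * b)

/-! ## Graph modules -/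

/-- EXPN. -/
def ExpnStatement : Prop :=
  ∀ (V : Type) [Fintype V] (G : SimpleGraph V) (n₀ : ℕ), 1 ≤ n₀ → Deg4 G → Expd G n₀ →
    (∀ Q : Finset V, 2 * Q.card ≤ Fintype.card V →
      n₀ * (pairs G Q).card + Q.card ≤ 4 * n₀ * Q.card) ∧
    (∀ Q : Finset V, Fintype.card V < 2 * Q.card →
      n₀ * (pairs G Q).card + Qᶜ.card ≤ 4 * n₀ * Q.card)

/-- RCOV. -/
def RcovStatement : Prop :=
  ∀ (V : Type) [Fintype V] (H : SimpleGraph V) (n₀ L : ℕ), 1 ≤ n₀ → 24 * n₀ ≤ L →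
    48 * n₀ ≤ Fintype.card V → Deg4 H →
    (∀ Q : Finset V, 2 * Q.card ≤ Fintype.card V →
      n₀ * (pairs H Q).card + Q.card ≤ 4 * n₀ * Q.card) →
    ∃ 𝓑 : Finset (Finset V),
      (∀ A ∈ 𝓑, 2 ≤ A.card ∧ A.card ≤ 12 * n₀ ∧ 4 * A.card ≤ (pairs H A).card + 6 ∧
        ∀ v ∈ A, ∃ u ∈ A, H.Adj v u) ∧
      (∀ u v, H.Adj u v → ∃ A ∈ 𝓑, u ∈ A ∧ v ∈ A) ∧
      (∀ v, (𝓑.filter (fun A => v ∈ A)).card ≤ 4) ∧
      (∀ A ∈ 𝓑, ∀ A' ∈ 𝓑, A ≠ A' → (A ∩ A').card ≤ 1) ∧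
      (∀ 𝓚 : Finset (Finset V), 𝓚 ⊆ 𝓑 → 𝓚.Nonempty →
        2 * (𝓚.biUnion id).card ≤ Fintype.card V →
        L * (∑ A ∈ 𝓚, (2 * A.card - 3)) + 𝓚.card ≤ L * (2 * (𝓚.biUnion id).card - 3) + 1)

/-- EDGES. -/
def EdgesStatement : Prop :=
  ∀ (V : Type) [Fintype V] (H : SimpleGraph V) (𝓚 : Finset (Finset V)) (Q : Finset V),
    (∀ A ∈ 𝓚, 2 ≤ A.card ∧ A ⊆ Q ∧ 4 * A.card ≤ (pairs H A).card + 6) →
    (∀ A ∈ 𝓚, ∀ A' ∈ 𝓚, A ≠ A' → (A ∩ A').card ≤ 1) →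
    2 * (∑ A ∈ 𝓚, (2 * A.card - 3)) ≤ (pairs H Q).card

/-- SYS. -/
def SysStatement : Prop :=
  ∀ (V : Type) [Fintype V] (G : SimpleGraph V) (S : Finset V) (n₀ L : ℕ), 1 ≤ n₀ →
    24 * n₀ ≤ L → 48 * n₀ ≤ Fintype.card V → Deg4 G → Expd G n₀ → S.card = 12 * n₀ →
    ∃ (X : Type) (_ : Fintype X) (B : X → Finset V), Sys G S B n₀ L (12 * n₀)

/-! ## Independent transversals and the base shapes -/

/-- RADO. -/
def RadoStatement : Prop :=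
  ∀ (N X : Type) [AddCommGroup N] [Module ℝ N] [FiniteDimensional ℝ N] [Fintype X]
    (F : X → Finset (N →ₗ[ℝ] ℝ)), (∀ x, (F x).Nonempty) →
    (∀ K : Finset X,
      finrank ℝ (⨅ x ∈ Kᶜ, ⨅ f ∈ F x, LinearMap.ker f : Submodule ℝ N) ≤ K.card) →
    ∃ f : X → (N →ₗ[ℝ] ℝ), (∀ x, f x ∈ F x) ∧
      (⨅ x, LinearMap.ker (f x) : Submodule ℝ N) = ⊥

/-- DIMN. -/
def DimnStatement : Prop :=
  ∀ (V X : Type) [Fintype V] [Fintype X] (B : X → Finset V), (∀ x, 2 ≤ (B x).card) →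
    (∀ K : Finset X, K.Nonempty → Rk B K + 3 ≤ 2 * (vs B K).card) →
    ∀ K : Finset X,
      finrank ℝ (famK B K ⊓ LinearMap.ker sumMap : Submodule ℝ (X → V → ℝ × ℝ)) ≤ K.card

/-- BASE. -/
def BaseStatement : Prop :=
  ∀ (V X : Type) [Fintype V] [Fintype X] (B : X → Finset V), (∀ x, 2 ≤ (B x).card) →
    (∀ K : Finset X,
      finrank ℝ (famK B K ⊓ LinearMap.ker sumMap : Submodule ℝ (X → V → ℝ × ℝ)) ≤ K.card) →
    ∃ (j : X → V) (a : X → Fin 2), (∀ x, j x ∈ B x) ∧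
      Indep B (fun x => (Pi.single (j x) (e2 (a x)) : V → ℝ × ℝ))

/-- INJP. -/
def InjpStatement : Prop :=
  ∀ (M N : Type) [AddCommGroup M] [Module ℝ M] [FiniteDimensional ℝ M] [AddCommGroup N]
    [Module ℝ N] [FiniteDimensional ℝ N] (A₀ A₁ : M →ₗ[ℝ] N), Function.Injective A₀ →
    {t : ℝ | ¬ Function.Injective (A₀ + t • A₁)}.Finite

/-- OPENC. -/
def OpencStatement : Prop :=
  ∀ (V X : Type) [Fintype V] [Fintype X] (B : X → Finset V) (idx : X → V → ℕ) (j : X → V)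
    (a : X → Fin 2) (s : ℕ),
    Indep B (fun x => (Pi.single (j x) (e2 (a x)) : V → ℝ × ℝ)) →
    {τ : ℝ | ¬ ∀ c : X → Fin s, Indep B (fun x => qs idx j a τ (c x).val x)}.Finite

/-- GENC. -/
def GencStatement : Prop :=
  ∀ (V X : Type) [Fintype V] [Fintype X] (B : X → Finset V) (b : ℕ) (idx : X → V → ℕ)
    (j : X → V) (a : X → Fin 2) (s : ℕ), Num B b idx →
    {τ : ℝ | ¬ ∀ (i : Fin s) (x : X) (u v : V), u ∈ B x → v ∈ B x → u ≠ v →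
      qs idx j a τ i.val x u ≠ qs idx j a τ i.val x v}.Finite ∧
    {τ : ℝ | ¬ ∀ (i : Fin s) (x : X) (u v w : V), u ∈ B x → v ∈ B x → w ∈ B x → u ≠ v →
      w ≠ u → w ≠ v →
      (qs idx j a τ i.val x u - qs idx j a τ i.val x v).1 *
          ((qs idx j a τ i.val x w).2 - (qs idx j a τ i.val x u).2) -
        (qs idx j a τ i.val x u - qs idx j a τ i.val x v).2 *
          ((qs idx j a τ i.val x w).1 - (qs idx j a τ i.val x u).1) ≠ 0}.Finite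

/-- KILLC. -/
def KillcStatement : Prop :=
  ∀ (V X : Type) [Fintype V] [Fintype X] (B : X → Finset V) (b : ℕ) (idx : X → V → ℕ)
    (j : X → V) (a : X → Fin 2) (s : ℕ) (τ : ℝ), Num B b idx → τ ≠ 0 →
    ∀ (x : X) (F : V → ℝ × ℝ), F ≠ 0 → (∀ v, v ∉ B x → F v = 0) →
      (univ.filter (fun i : Fin s => ip (qs idx j a τ i.val x) F = 0)).card ≤ 4 * b

/-! ## Rules -/

/-- HREL. -/
def HrelStatement : Prop :=
  ∀ (V X C : Type) [Fintype V] [Fintype X] [Fintype C] (B : X → Finset V)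
    (q : C → X → V → ℝ × ℝ) (ord : X → ℕ), (∀ x, 2 ≤ (B x).card) → Function.Injective ord →
    ∀ (τ : Fin 4) (x₀ : X) (u v w : V) (K : Finset X) (c : X → C), Conn (adjB B) K →
      K.Nonempty → τ.val < 2 → K ≠ {x₀} → HasRel B q K (Pf q τ x₀ u v w (c x₀)) c →
      (2 * (vs B K).card ≤
        (failSet ord (lamB q) (famS B K (Pf q τ x₀ u v w (c x₀))) (Hf τ K x₀) c).card +
          Rk B K + 3) ∧
      ∀ L : ℕ, 1 ≤ L → L * Rk B K + K.card ≤ L * (2 * (vs B K).card - 3) + 1 →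
        (insert x₀ K).card ≤ 2 * L *
          (failSet ord (lamB q) (famS B K (Pf q τ x₀ u v w (c x₀))) (Hf τ K x₀) c).card

/-- YFIB. -/
def YfibStatement : Prop :=
  ∀ (V X C : Type) [Fintype V] [Fintype X] [Fintype C] (B : X → Finset V)
    (q : C → X → V → ℝ × ℝ) (ord : X → ℕ) (r : ℕ), Function.Injective ord →
    (∀ x F, F ≠ 0 → (∀ v, v ∉ B x → F v = 0) →
      (univ.filter (fun i => ip (q i x) F = 0)).card ≤ r) →
    ∀ (Z : Finset V) (N D : Finset X),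
      (∀ c₀ : X → C, (univ.filter (fun c : X → C =>
        (∀ x, x ∉ D → c x = c₀ x) ∧ YBad B q ord Z N D c)).card ≤ r ^ D.card) ∧
      (∀ c c' : X → C, (∀ x ∈ KZ B Z, c x = c' x) → YBad B q ord Z N D c →
        YBad B q ord Z N D c') ∧
      (∀ c : X → C, YBad B q ord Z N D c → N ⊆ KZ B Z ∧ D ⊆ N)

/-- YDROP. -/
def YdropStatement : Prop :=
  ∀ (V X : Type) [Fintype V] [Fintype X] (B : X → Finset V) (q : X → V → ℝ × ℝ)
    (Z : Finset V) (Y : Finset X) (x : X), 2 ≤ (B x).card →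
    ¬ Prp B (kerR B q Z Y) x →
    finrank ℝ (kerR B q Z (insert x Y)) + (2 * (B x).card - 3) ≤ finrank ℝ (kerR B q Z Y)

/-- YBASE. -/
def YbaseStatement : Prop :=
  ∀ (V X : Type) [Fintype V] [Fintype X] (B : X → Finset V) (q : X → V → ℝ × ℝ)
    (Z : Finset V) (Y : Finset X), (∀ x, 2 ≤ (B x).card) → Indep B q → (∀ x ∈ Y, B x ⊆ Z) →
    finrank ℝ (kerR B q Z Y) + Rk B Y ≤ 2 * Z.card

/-- YCOUNT. -/
def YcountStatement : Prop :=
  ∀ (V X : Type) [Fintype V] [Fintype X] (B : X → Finset V) (b : ℕ) (q : X → V → ℝ × ℝ)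
    (ord : X → ℕ) (Z : Finset V) (p : V → ℝ × ℝ), (∀ x, 2 ≤ (B x).card) →
    (∀ x, (B x).card ≤ b) → Function.Injective ord → Indep B q → p ∈ kerZ B q Z →
    (∀ v ∈ Z, p v ≠ 0) →
    finrank ℝ (kerZ B q Z) + Rk B (KZ B Z) ≤
      2 * Z.card + 2 * b * (detSet B q Z (ncs B p) ord).card

/-- YSUM. -/
def YsumStatement : Prop :=
  ∀ (V X : Type) [Fintype V] [Fintype X] (B : X → Finset V) (b δ L' : ℕ),
    (∀ x, (B x).card ≤ b) → (∀ x, (univ.filter (fun y => adjB B x y)).card ≤ δ) →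
    ∀ (y : ℝ), 0 ≤ y → y ≤ (1 / (Zy b δ : ℝ)) ^ (2 * L') / 2 → ∀ (x : X),
    ∑ i ∈ (univ : Finset (Finset V × Finset X × Finset X)).filter
      (fun i => x ∈ KZ B i.1 ∧ Conn (adjB B) (KZ B i.1) ∧ (∀ v ∈ i.1, ∃ z, v ∈ B z) ∧
        i.2.1 ⊆ KZ B i.1 ∧ i.2.2 ⊆ KZ B i.1 ∧ (KZ B i.1).card ≤ 2 * L' * i.2.2.card),
      y ^ i.2.2.card ≤ 1 / 4

/-- GOOD. -/
def GoodStatement : Prop :=
  ∀ (V X C : Type) [Fintype V] [Fintype X] [Fintype C] (B : X → Finset V)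
    (b δ L L' r : ℕ) (q : C → X → V → ℝ × ℝ) (ord : X → ℕ), Function.Injective ord →
    (∀ x, 2 ≤ (B x).card) → (∀ x, (B x).card ≤ b) →
    (∀ x, (univ.filter (fun y => adjB B x y)).card ≤ δ) →
    (∀ x F, F ≠ 0 → (∀ v, v ∉ B x → F v = 0) →
      (univ.filter (fun i => ip (q i x) F = 0)).card ≤ r) →
    1 ≤ L → 1 ≤ L' → numC b δ L L' r ≤ Fintype.card C →
    ∃ c : X → C, HH B q ord L c ∧ YY B q ord L' c

/-! ## Relations have large support; drawings do not collapse -/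

/-- SUPP. -/
def SuppStatement : Prop :=
  ∀ (V X C : Type) [Fintype V] [Fintype X] [Fintype C] (G : SimpleGraph V) (S : Finset V)
    (B : X → Finset V) (n₀ L b : ℕ) (q : C → X → V → ℝ × ℝ) (ord : X → ℕ) (c : X → C),
    1 ≤ n₀ → 1 ≤ L → Sys G S B n₀ L b → Function.Injective ord → HH B q ord L c →
    (∀ i x u v, u ∈ B x → v ∈ B x → u ≠ v → q i x u ≠ q i x v) →
    (∀ i x u v w, u ∈ B x → v ∈ B x → w ∈ B x → u ≠ v → w ≠ u → w ≠ v →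
      (q i x u - q i x v).1 * ((q i x w).2 - (q i x u).2) -
        (q i x u - q i x v).2 * ((q i x w).1 - (q i x u).1) ≠ 0) →
    ∀ i : Tst X V, IsTst B i → tv (qc q c) i ∈ sp B (qc q c) →
      ∃ (K : Finset X) (Φ : X → V → ℝ × ℝ), Φ ∈ NN B (qc q c) ∧ sumMap Φ = tv (qc q c) i ∧
        (∀ x ∈ K, Φ x ≠ 0) ∧ L * Kᶜ.card ≤ 9 * n₀ * (Fintype.card V + 3 * L)

/-- KDIM. -/
def KdimStatement : Prop :=
  ∀ (V X : Type) [Fintype V] [Fintype X] (B : X → Finset V) (q : X → V → ℝ × ℝ),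
    (∀ x, 2 ≤ (B x).card) → (∀ x, ∃ u ∈ B x, ∃ v ∈ B x, q x u ≠ q x v) →
    2 * Fintype.card V ≤ finrank ℝ (kerq B q) + Rk B univ

/-- YSPLIT. -/
def YsplitStatement : Prop :=
  ∀ (V X : Type) [Fintype V] [Fintype X] (G : SimpleGraph V) (S : Finset V)
    (B : X → Finset V) (n₀ L b : ℕ) (q : X → V → ℝ × ℝ), 1 ≤ n₀ → Sys G S B n₀ L b →
    2 * Fintype.card V ≤ finrank ℝ (kerq B q) + Rk B univ →
    ∀ Q : Finset V, Fintype.card V < 2 * Q.card → 2 ≤ Q.card →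
      (∀ p ∈ kerq B q, ∀ u ∈ Q, ∀ v ∈ Q, p u = p v) →
      ∃ (Y : Finset V) (p : V → ℝ × ℝ), Conn (adjB B) (KZ B Y) ∧ (KZ B Y).Nonempty ∧
        (∀ v ∈ Y, ∃ x, v ∈ B x) ∧ p ∈ kerZ B q Y ∧ (∀ v ∈ Y, p v ≠ 0) ∧
        Y.card + 6 * n₀ * Y.card ≤ 3 * n₀ * (finrank ℝ (kerZ B q Y) + Rk B (KZ B Y))

/-- BLOCK. -/
def BlockStatement : Prop :=
  ∀ (V X C : Type) [Fintype V] [Fintype X] [Fintype C] (G : SimpleGraph V) (S : Finset V)
    (B : X → Finset V) (n₀ L b : ℕ) (q : C → X → V → ℝ × ℝ) (ord : X → ℕ) (c : X → C),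
    1 ≤ n₀ → 1 ≤ b → Sys G S B n₀ L b → Function.Injective ord → Indep B (qc q c) →
    (∀ i x u v, u ∈ B x → v ∈ B x → u ≠ v → q i x u ≠ q i x v) →
    YY B q ord (12 * n₀ * b) c →
    ∀ Q : Finset V, Fintype.card V < 2 * Q.card → 2 ≤ Q.card →
      ∃ p ∈ kerq B (qc q c), ∃ u ∈ Q, ∃ v ∈ Q, p u ≠ p v

/-- NONCOL. -/
def NoncolStatement : Prop :=
  ∀ (V X : Type) [Fintype V] [Fintype X] (G : SimpleGraph V) (S : Finset V)
    (B : X → Finset V) (n₀ L b : ℕ) (q : X → V → ℝ × ℝ), 1 ≤ n₀ → 4 ≤ Fintype.card V →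
    Deg4 G → Expd G n₀ → Sys G S B n₀ L b →
    (∀ Q : Finset V, Fintype.card V < 2 * Q.card → 2 ≤ Q.card →
      ∃ p ∈ kerq B q, ∃ u ∈ Q, ∃ v ∈ Q, p u ≠ p v) →
    ∃ p ∈ kerq B q, Fintype.card V ≤ n₀ * (b ^ 2 * (ncs B p).card + 96 * n₀)

/-! ## Perturbation -/

/-- LO. -/
def LoStatement : Prop :=
  ∀ (X : Type) [Fintype X] (a : X → ℝ) (t : ℝ),
    ((univ.filter (fun μ : X → Bool => ∑ x, (if μ x = true then a x else 0) = t)).card) ^ 2 *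
      ((univ.filter (fun x => a x ≠ 0)).card + 1) ≤ 4 ^ Fintype.card X

/-- UNION. -/
def UnionStatement : Prop :=
  ∀ (X A I : Type) [Fintype X] [Fintype A] [Fintype I] (a : I → A → X → ℝ) (m : ℕ),
    (∀ i, ∃ α, m ≤ (univ.filter (fun x => a i α x ≠ 0)).card) →
    (Fintype.card I) ^ 2 < (m + 1) ^ 5 →
    ∃ μ : A → Fin 5 → X → Bool, ∀ i, ∃ α k,
      ∑ x, (if μ α k x = true then a i α x else 0) ≠ 0

/-- RHO. -/
def RhoStatement : Prop :=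
  ∀ (I R : Type) [Fintype I] [Fintype R] (J : I → R → ℝ), (∀ i, ∃ r, J i r ≠ 0) →
    ∃ ρ : R → ℝ, ∀ i, ∑ r, ρ r * J i r ≠ 0

/-- PERT. -/
def PertStatement : Prop :=
  ∀ (M N : Type) [AddCommGroup M] [Module ℝ M] [FiniteDimensional ℝ M] [AddCommGroup N]
    [Module ℝ N] [FiniteDimensional ℝ N] (A₀ A₁ : M →ₗ[ℝ] N) (ψ₀ ψ₁ : N),
    Function.Injective A₀ →
    (ψ₀ ∉ LinearMap.range A₀ ∨ ∃ (p : N →ₗ[ℝ] ℝ) (y : M), (∀ z, p (A₀ z) = 0) ∧ A₀ y = ψ₀ ∧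
      p ψ₁ ≠ p (A₁ y)) →
    ∃ ε : ℝ, 0 < ε ∧ ∀ t : ℝ, t ≠ 0 → |t| < ε → ψ₀ + t • ψ₁ ∉ LinearMap.range (A₀ + t • A₁)

/-- STAB. -/
def StabStatement : Prop :=
  ∀ (V X : Type) [Fintype V] [Fintype X] (B : X → Finset V) (q δ : X → V → ℝ × ℝ)
    (p : V → ℝ × ℝ) (s : X → ℝ) (a : X → ℝ × ℝ) (i : Tst X V),
    Indep B q → (∀ x, ∃ u ∈ B x, ∃ v ∈ B x, q x u ≠ q x v) →
    (∀ x, ∀ v ∈ B x, p v = s x • q x v + a x) →
    (tv q i ∉ sp B q ∨ ∃ Φ ∈ NN B q, sumMap Φ = tv q i ∧ Jv p s Φ i δ ≠ 0) →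
    ∃ ε : ℝ, 0 < ε ∧ ∀ t : ℝ, t ≠ 0 → |t| < ε → tv (q + t • δ) i ∉ sp B (q + t • δ)

/-- JLIN. -/
def JlinStatement : Prop :=
  ∀ (V X : Type) [Fintype V] [Fintype X] (b : ℕ) (idx : X → V → ℕ) (p : V → ℝ × ℝ)
    (s : X → ℝ) (Φ : X → V → ℝ × ℝ) (i : Tst X V) (ρ : Fin b × Fin 2 → Fin 5 → ℝ)
    (μ : Fin b × Fin 2 → Fin 5 → X → Bool),
    Jv p s Φ i (dl idx ρ μ) = ∑ r : (Fin b × Fin 2) × Fin 5, ρ r.1 r.2 *
      ∑ x, (if μ r.1 r.2 x = true then Jv p s Φ i (un idx r.1 x) else 0)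

/-- COEF. -/
def CoefStatement : Prop :=
  ∀ (V X : Type) [Fintype V] [Fintype X] (B : X → Finset V) (b : ℕ) (idx : X → V → ℕ)
    (q : X → V → ℝ × ℝ) (p : V → ℝ × ℝ) (s : X → ℝ) (a : X → ℝ × ℝ) (K : Finset X)
    (Φ : X → V → ℝ × ℝ) (i : Tst X V), Num B b idx → 1 ≤ b →
    (∀ x, ∀ v ∈ B x, p v = s x • q x v + a x) → Φ ∈ famK B univ → (∀ x ∈ K, Φ x ≠ 0) →
    ∃ α : Fin b × Fin 2, (ncs B p).card ≤
      2 * b * (univ.filter (fun x => Jv p s Φ i (un idx α x) ≠ 0)).card + Kᶜ.card + 1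

/-- TUNE. -/
def TuneStatement : Prop :=
  ∀ (V X : Type) [Fintype V] [Fintype X] (B : X → Finset V) (b κ m : ℕ) (idx : X → V → ℕ)
    (q : X → V → ℝ × ℝ) (p : V → ℝ × ℝ), Num B b idx → 1 ≤ b → Indep B q →
    (∀ x, ∃ u ∈ B x, ∃ v ∈ B x, q x u ≠ q x v) →
    (∀ i : Tst X V, IsTst B i → tv q i ∈ sp B q →
      ∃ (K : Finset X) (Φ : X → V → ℝ × ℝ), Φ ∈ NN B q ∧ sumMap Φ = tv q i ∧
        (∀ x ∈ K, Φ x ≠ 0) ∧ Kᶜ.card ≤ κ) →
    p ∈ kerq B q → 2 * b * m + κ + 1 ≤ (ncs B p).card →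
    (univ.filter (fun i : Tst X V => IsTst B i)).card ^ 2 < (m + 1) ^ 5 →
    ∃ (ρ : Fin b × Fin 2 → Fin 5 → ℝ) (μ : Fin b × Fin 2 → Fin 5 → X → Bool) (t : ℝ),
      ∀ i : Tst X V, IsTst B i → tv (q + t • dl idx ρ μ) i ∉ sp B (q + t • dl idx ρ μ)

/-! ## The drawing -/

/-- TCARD. -/
def TcardStatement : Prop :=
  ∀ (V X : Type) [Fintype V] [Fintype X] (B : X → Finset V) (b : ℕ),
    (∀ x, 2 ≤ (B x).card) → (∀ x, (B x).card ≤ b) →
    (∀ v, (univ.filter (fun x => v ∈ B x)).card ≤ 4) →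
    Fintype.card X ≤ 2 * Fintype.card V ∧
      (univ.filter (fun i : Tst X V => IsTst B i)).card ≤ 4 * b ^ 2 * Fintype.card V ^ 2

/-- FPOS. -/
def FposStatement : Prop :=
  ∀ (V X : Type) [Fintype V] [Fintype X] (B : X → Finset V) (q : X → V → ℝ × ℝ),
    (∀ x, 2 ≤ (B x).card) →
    (∀ i : Tst X V, IsTst B i → tv q i ∉ sp B q) →
    ∃ p : V → ℝ × ℝ, Function.Injective p ∧
      (∀ x u v w, u ∈ B x → v ∈ B x → u ≠ v → w ≠ u → w ≠ v → p w ∉ segment ℝ (p u) (p v)) ∧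
      (∀ x u v, u ∈ B x → v ∈ B x → ∃ t : ℝ, p v - p u = t • (q x v - q x u))

/-- DIRS. -/
def DirsStatement : Prop :=
  ∀ (V X : Type) [Fintype V] [Fintype X] (B : X → Finset V) (b s : ℕ) (idx : X → V → ℕ)
    (j : X → V) (a : X → Fin 2) (τ t : ℝ) (c : X → Fin s)
    (ρ : Fin b × Fin 2 → Fin 5 → ℝ) (μ : Fin b × Fin 2 → Fin 5 → X → Bool),
    Num B b idx → (∀ x, j x ∈ B x) →
    ∃ S : Finset (ℝ × ℝ), S.card ≤ numD s b ∧ ∀ x u v, u ∈ B x → v ∈ B x →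
      ((fun x => qs idx j a τ (c x).val x) + t • dl idx ρ μ : X → V → ℝ × ℝ) x v -
        ((fun x => qs idx j a τ (c x).val x) + t • dl idx ρ μ : X → V → ℝ × ℝ) x u ∈ S

/-- ARITH. -/
def ArithStatement : Prop :=
  ∀ n₀ : ℕ, 1 ≤ n₀ → ∃ n₁ : ℕ, ∀ n : ℕ, n₁ ≤ n → ∀ M κ : ℕ,
    n ≤ n₀ * ((12 * n₀) ^ 2 * M + 96 * n₀) →
    36 * n₀ ^ 2 * (12 * n₀) ^ 2 * κ ≤ 9 * n₀ * (n + 3 * (36 * n₀ ^ 2 * (12 * n₀) ^ 2)) →
    ∃ m : ℕ, 2 * (12 * n₀) * m + κ + 1 ≤ M ∧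
      (4 * (12 * n₀) ^ 2 * n ^ 2) ^ 2 < (m + 1) ^ 5

/-- MAIN: large expanders. -/
def MainStatement : Prop :=
  ∀ n₀ : ℕ, 1 ≤ n₀ → ∃ C n₁ : ℕ, ∀ (V : Type) [Fintype V] (G : SimpleGraph V),
    n₁ ≤ Fintype.card V → Deg4 G → Expd G n₀ → Drawable G C

/-- SMALL. -/
def SmallStatement : Prop :=
  ∀ (V : Type) [Fintype V] (G : SimpleGraph V), Drawable G (Fintype.card V ^ 2)

/-- FINAL: Theorem E. -/
def FinalStatement : Prop :=
  ∀ h : ℝ, 0 < h → ∃ C : ℕ, ∀ (V : Type) [Fintype V] [DecidableEq V] (G : SimpleGraph V)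
    [DecidableRel G.Adj], G.maxDegree ≤ 4 →
    (∀ Y : Finset V, 2 * Y.card ≤ Fintype.card V →
      h * Y.card ≤ ((Y ×ˢ Yᶜ).filter (fun p => G.Adj p.1 p.2)).card) →
    ∃ f : V → ℝ × ℝ, Function.Injective f ∧
      (∀ u v w : V, G.Adj u v → w ≠ u → w ≠ v → f w ∉ segment ℝ (f u) (f v)) ∧
      ∃ S : Finset (ℝ × ℝ), S.card ≤ C ∧
        ∀ u v : V, G.Adj u v → ∃ d ∈ S, ∃ t : ℝ, f v - f u = t • d

end Pool.Agent.Lib.MP_04668c_co.E
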